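import Pool.Agent.Lib.MP_ec9812_ag.Final

/-!
Negative answer to Q1: there are integers `1 < q < n` and a connected, noncompact, Hausdorff,
σ-compact complex manifold `X` of dimension `n` that is cohomologically `q`-convex and has no
`q`-maximal compact analytic subvariety.

`X` is the quotient of `{(z, w₁, w₀) ∈ ℂ^(n-2) × ℂ × ℂ : (z, Im w₁) ≠ 0}` by the group
`ℤ[√3] ⋊ ⟨2 + √3⟩`; it contains infinitely many compact Hopf manifolds of dimension `q = n - 2`
that lie in no compact analytic subvariety.
-/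

open scoped Manifold ContDiff
open Pool.Agent.QMax

theorem Pool.Agent.Results.MP_ec9812_ag.NoQMaximal.result :
    ∃ (n q : ℕ), 1 < q ∧ q < n ∧
      ∃ (X : Type) (_ : TopologicalSpace X) (_ : ChartedSpace (Fin n → ℂ) X),
        IsManifold 𝓘(ℂ, Fin n → ℂ) ω X ∧ T2Space X ∧ SigmaCompactSpace X ∧ ConnectedSpace X ∧
        NoncompactSpace X ∧ CohConvex n X q ∧ ¬ ∃ S : Set X, IsQMaximal n q S :=
  main
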